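import Mathlib
import Pool.Agent.Helper540.GrowthUp
import Pool.Agent.Y965.CF.Low
import Pool.Agent.Y965.CF.Asy

set_option autoImplicit false

namespace Pool.Agent.Results.MP_ea326e_an.AllHilbertSpaces

open Set Metric Filter Topology

universe u

/-- The Caratheodory family of the unit ball of a complex inner product space: maps `h`, holomorphic
in the ball, with `h 0 = 0`, `D h 0 = I` and `Re <h z, z> > 0` for every `z ≠ 0` of the ball
(Mathlib's `inner ℂ z w` is conjugate linear in `z`, so it is the `<w, z>` of the problem). -/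
def caratheodory (E : Type u) [NormedAddCommGroup E] [InnerProductSpace ℂ E] : Set (E → E) :=
  {h | DifferentiableOn ℂ h (ball 0 1) ∧ h 0 = 0 ∧ fderiv ℂ h 0 = ContinuousLinearMap.id ℂ E ∧
    ∀ z ∈ ball (0 : E) 1, z ≠ 0 → 0 < (inner ℂ z (h z)).re}

/-- The norms `‖h z‖` of the values at the point `z` of the members of the Caratheodory family. -/
def valuesAt {E : Type u} [NormedAddCommGroup E] [InnerProductSpace ℂ E] (z : E) : Set ℝ :=
  {x | ∃ h ∈ caratheodory E, x = ‖h z‖}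

/-- The sharp growth bound: the supremum of `‖h z‖`, `h` in the Caratheodory family, `‖z‖ = r`. -/
noncomputable def growth (E : Type u) [NormedAddCommGroup E] [InnerProductSpace ℂ E] (r : ℝ) : ℝ :=
  sSup {x | ∃ z : E, ‖z‖ = r ∧ x ∈ valuesAt z}

/-- The positive root `S` of `(2 - p) S² + (1 - p) (1 - p - p²) S = p²`. -/
noncomputable def rootS (p : ℝ) : ℝ :=
  (-((1 - p) * (1 - p - p ^ 2)) + √(((1 - p) * (1 - p - p ^ 2)) ^ 2 + 4 * (2 - p) * p ^ 2)) /
    (2 * (2 - p))

/-- The radius with parameter `p`. -/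
noncomputable def radius (p : ℝ) : ℝ :=
  √(rootS p * (p * (1 + p) + (1 - p) * rootS p) / (p + (2 - p) * rootS p))

/-- The sharp bound at the radius with parameter `p`. -/
noncomputable def maxNorm (p : ℝ) : ℝ :=
  √(p * (1 - rootS p) * (p + (2 - p) * rootS p)) / (1 - p) ^ 2

theorem rootS_same : rootS = SharpGrowth.rootS := rfl

theorem radius_same : radius = SharpGrowth.radius := rfl

theorem maxNorm_same : maxNorm = SharpGrowth.maxNorm := rfl

theorem exists_orth {E : Type u} [NormedAddCommGroup E] [InnerProductSpace ℂ E]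
    (hE : 2 ≤ Module.rank ℂ E) {u : E} (hu : ‖u‖ = 1) :
    ∃ v : E, ‖v‖ = 1 ∧ inner ℂ u v = (0 : ℂ) := by
  have hw : ∃ w : E, ∀ c : ℂ, c • u ≠ w := by
    by_contra hcon
    push Not at hcon
    have h1 : Module.rank ℂ E ≤ 1 := rank_le_one_iff.2 ⟨u, hcon⟩
    have h2 : (2 : Cardinal) ≤ 1 := hE.trans h1
    exact absurd h2 (by norm_num)
  obtain ⟨w, hw⟩ := hw
  have huu : inner ℂ u u = (1 : ℂ) := by rw [inner_self_eq_norm_sq_to_K, hu]; norm_num
  set w' : E := w - (inner ℂ u w : ℂ) • u with hw'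
  have h0 : w' ≠ 0 := by
    intro h
    exact hw _ (sub_eq_zero.1 h).symm
  have hn : (0 : ℝ) < ‖w'‖ := norm_pos_iff.2 h0
  have horth : inner ℂ u w' = (0 : ℂ) := by
    rw [hw', inner_sub_right, inner_smul_right, huu]
    ring
  refine ⟨((‖w'‖⁻¹ : ℝ) : ℂ) • w', ?_, ?_⟩
  · rw [norm_smul, Complex.norm_real, Real.norm_of_nonneg (by positivity)]
    exact inv_mul_cancel₀ hn.ne'
  · rw [inner_smul_right, horth, mul_zero]

theorem isGreatest_at {E : Type u} [NormedAddCommGroup E] [InnerProductSpace ℂ E]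
    (hE : 2 ≤ Module.rank ℂ E) {p : ℝ} (hp : p ∈ Ioo (0 : ℝ) 1) {z : E} (hz : ‖z‖ = radius p) :
    IsGreatest (valuesAt z) (maxNorm p) := by
  obtain ⟨h0, h1⟩ := hp
  have c := SharpGrowth.crit_rootS h0 h1
  have hr : 0 < radius p := h0.trans (SharpGrowth.radius_gt h0 h1)
  constructor
  · set r := radius p with hrd
    set u : E := ((r⁻¹ : ℝ) : ℂ) • z with hu
    have hun : ‖u‖ = 1 := by
      rw [hu, norm_smul, Complex.norm_real, Real.norm_of_nonneg (by positivity), hz]
      exact inv_mul_cancel₀ hr.ne'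
    have hzu : z = (r : ℂ) • u := by
      rw [hu, smul_smul, ← Complex.ofReal_mul, mul_inv_cancel₀ hr.ne', Complex.ofReal_one, one_smul]
    obtain ⟨v, hv, huv⟩ := exists_orth hE hun
    obtain ⟨h, hd, h00, hf, hpos, hm⟩ := Pool.Agent.Y965.CF.exM_attains hun hv huv c hr rfl
      (SharpGrowth.radius_sq h0 h1) (SharpGrowth.maxNorm_sq h0 h1)
    refine ⟨h, ⟨hd, h00, hf, hpos⟩, ?_⟩
    rw [← hzu] at hm
    exact ((sq_eq_sq₀ (norm_nonneg _) (SharpGrowth.maxNorm_nonneg p)).1 hm).symm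
  · rintro x ⟨h, ⟨hd, h00, hf, hpos⟩, rfl⟩
    have := Pool.Agent.Helper540.growth_le hd h00 hf hpos c (SharpGrowth.maxNorm_sq h0 h1) hr hz
      (SharpGrowth.radius_sq h0 h1)
    exact (pow_le_pow_iff_left₀ (norm_nonneg _) (SharpGrowth.maxNorm_nonneg p) two_ne_zero).1 this

theorem growth_eq {E : Type u} [NormedAddCommGroup E] [InnerProductSpace ℂ E]
    (hE : 2 ≤ Module.rank ℂ E) {p : ℝ} (hp : p ∈ Ioo (0 : ℝ) 1) :
    growth E (radius p) = maxNorm p := by
  have hr : 0 < radius p := hp.1.trans (SharpGrowth.radius_gt hp.1 hp.2)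
  have hne : ∃ w : E, w ≠ 0 := by
    by_contra hcon
    push Not at hcon
    have h1 : Module.rank ℂ E ≤ 1 := rank_le_one_iff.2 ⟨0, fun v => ⟨0, by rw [hcon v, smul_zero]⟩⟩
    have h2 : (2 : Cardinal) ≤ 1 := hE.trans h1
    exact absurd h2 (by norm_num)
  obtain ⟨w, hw⟩ := hne
  have hn : (0 : ℝ) < ‖w‖ := norm_pos_iff.2 hw
  have hz : ‖((radius p * ‖w‖⁻¹ : ℝ) : ℂ) • w‖ = radius p := by
    rw [norm_smul, Complex.norm_real, Real.norm_of_nonneg (by positivity)]
    field_simp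
  apply IsGreatest.csSup_eq
  constructor
  · exact ⟨_, hz, (isGreatest_at hE hp hz).1⟩
  · rintro x ⟨z, hz, hx⟩
    exact (isGreatest_at hE hp hz).2 hx

/-- **The sharp growth theorem for the Caratheodory family in all complex inner product spaces.**
Let `E` be a complex inner product space of dimension at least two, finite or infinite (complete or
not), for instance `ℂⁿ`, `n ≥ 2`, or an infinite-dimensional Hilbert space.  The sharp upper bound
of `‖h z‖` over the Caratheodory family of the unit ball of `E` is the same function of `‖z‖` for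
all these spaces, it is attained at EVERY point `z ≠ 0` of the ball, and it is the explicit
function given by the parametrisation `r = radius p`, `m (r) = maxNorm p`, `0 < p < 1`.  As `r` tends
to `1`, `(1 - r) ^ (3 / 2) m (r)` tends to `3 √6 / 8`. -/
theorem result :
    (∀ p ∈ Ioo (0 : ℝ) 1, ∀ S : ℝ,
      (0 < S ∧ (2 - p) * S ^ 2 + (1 - p) * (1 - p - p ^ 2) * S = p ^ 2) ↔ S = rootS p) ∧
    StrictMonoOn radius (Ioo (0 : ℝ) 1) ∧ BijOn radius (Ioo (0 : ℝ) 1) (Ioo (0 : ℝ) 1) ∧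
    ∀ (E : Type u) [NormedAddCommGroup E] [InnerProductSpace ℂ E], 2 ≤ Module.rank ℂ E →
      (∀ p ∈ Ioo (0 : ℝ) 1, ∀ z : E, ‖z‖ = radius p → IsGreatest (valuesAt z) (maxNorm p)) ∧
      (∀ p ∈ Ioo (0 : ℝ) 1, growth E (radius p) = maxNorm p) ∧
      Tendsto (fun r : ℝ => (1 - r) ^ (3 / 2 : ℝ) * growth E r) (𝓝[<] 1) (𝓝 (3 * √6 / 8)) := by
  obtain ⟨s1, s2, s3, _, _⟩ := SharpGrowth.result
  refine ⟨s1, s2, s3, ?_⟩
  intro E _ _ hE
  refine ⟨fun p hp z hz => isGreatest_at hE hp hz, fun p hp => growth_eq hE hp, ?_⟩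
  have hex : ∀ r : ℝ, ∃ p : ℝ, r ∈ Ioo (0 : ℝ) 1 → p ∈ Ioo (0 : ℝ) 1 ∧ radius p = r := by
    intro r
    by_cases hr : r ∈ Ioo (0 : ℝ) 1
    · obtain ⟨p, hp, e⟩ := SharpGrowth.radius_surj hr
      exact ⟨p, fun _ => ⟨hp, e⟩⟩
    · exact ⟨0, fun h => absurd h hr⟩
  choose P hP using hex
  have h1 := Pool.Agent.Y965.CF.inv_tendsto (P := P) hP
  have h2 := Pool.Agent.Y965.CF.final_tendsto.comp h1
  refine h2.congr' ?_
  filter_upwards [Pool.Agent.Y965.CF.ev_mem] with r hr
  obtain ⟨h3, h4⟩ := hP r hr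
  have h5 : growth E r = maxNorm (P r) := by
    conv_lhs => rw [← h4]
    exact growth_eq hE h3
  simp only [Function.comp_apply]
  rw [h5]
  congr 2
  rw [show SharpGrowth.radius (P r) = radius (P r) from rfl, h4]

end Pool.Agent.Results.MP_ea326e_an.AllHilbertSpaces
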